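import Pool.Agent.Lib_MP_53ae57.M_Main

/-!
The sets of asymptotic values of quasiregular maps of small finite order.

Let `n ≥ 3` and `δ > 0`. There is `K ≥ 1` such that a set `A ⊆ R^n` is analytic (Suslin) if and only
if it is the set of asymptotic values of a nonconstant `K`-quasiregular map `f : R^n → R^n` with
`|f(x)| ≤ exp(|x|^δ)` for all large `|x|`.
-/

open Filter Topology MeasureTheory

namespace Pool.Agent.Results.MP_53ae57_an.AsymptoticSets

/-- `R^n` with the Euclidean norm. -/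
abbrev E (n : ℕ) : Type := EuclideanSpace ℝ (Fin n)

/-- `g : R^n → L(R^n, R^n)` is measurable and `|g|^n` (operator norm) is locally integrable. -/
def LocallyLn {n : ℕ} (g : E n → (E n →L[ℝ] E n)) : Prop :=
  AEStronglyMeasurable g volume ∧ LocallyIntegrable (fun x => ‖g x‖ ^ n) volume

/-- `g` is the weak derivative of `f`: `∫ (∂_v φ) f = - ∫ φ g(·)v` for all test functions `φ` and
all directions `v`. -/
def IsWeakDeriv {n : ℕ} (f : E n → E n) (g : E n → (E n →L[ℝ] E n)) : Prop :=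
  ∀ φ : E n → ℝ, ContDiff ℝ 1 φ → HasCompactSupport φ →
    ∀ v : E n, ∫ x, (fderiv ℝ φ x v) • f x = - ∫ x, φ x • g x v

/-- `|g(x)|^n ≤ K det g(x)` for almost every `x`. -/
def DilatationLe {n : ℕ} (K : ℝ) (g : E n → (E n →L[ℝ] E n)) : Prop :=
  ∀ᵐ x ∂(volume : Measure (E n)), ‖g x‖ ^ n ≤ K * LinearMap.det (g x).toLinearMap

/-- `f : R^n → R^n` is `K`-quasiregular: `f` is continuous and in `W^{1,n}_loc`, and its weak
derivative `g` satisfies `|g(x)|^n ≤ K det g(x)` for almost every `x`. -/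
def Quasiregular {n : ℕ} (K : ℝ) (f : E n → E n) : Prop :=
  Continuous f ∧ ∃ g : E n → (E n →L[ℝ] E n), LocallyLn g ∧ IsWeakDeriv f g ∧ DilatationLe K g

/-- The set of asymptotic values of `f`: the limits of `f` along paths tending to infinity. -/
def asymptoticValues {n : ℕ} (f : E n → E n) : Set (E n) :=
  {a | ∃ γ : ℝ → E n, Continuous γ ∧
    Tendsto (fun t => ‖γ t‖) atTop atTop ∧ Tendsto (fun t => f (γ t)) atTop (𝓝 a)}

theorem result (n : ℕ) (hn : 3 ≤ n) (δ : ℝ) (hδ : 0 < δ) :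
    ∃ K : ℝ, 1 ≤ K ∧ ∀ A : Set (E n), AnalyticSet A ↔
      ∃ f : E n → E n, Quasiregular K f ∧ (∃ x y, f x ≠ f y) ∧
        (∃ R₀ : ℝ, ∀ x, R₀ ≤ ‖x‖ → ‖f x‖ ≤ Real.exp (‖x‖ ^ δ)) ∧
        asymptoticValues f = A := by
  obtain ⟨m, rfl⟩ : ∃ m, n = m + 1 := ⟨n - 1, by omega⟩
  obtain ⟨K, hK, h⟩ := QRAsym.main_exists m (by omega) hδ
  refine ⟨K, hK, fun A => ⟨fun hA => ?_, ?_⟩⟩
  · obtain ⟨f, ⟨hc, g, h1, h2, h3, h4⟩, h5⟩ := h A hA
    exact ⟨f, ⟨hc, g, ⟨h1, h2⟩, h3, h4⟩, h5⟩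
  · rintro ⟨f, hf, -, -, rfl⟩
    exact QRAsym.asymptoticValues_analytic hf.1

end Pool.Agent.Results.MP_53ae57_an.AsymptoticSets
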